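import Pool.Agent.Helper237.PF.Main
import Pool.Agent.Helper237.PF.Decomp
import Pool.Agent.Helper237.PR.Main

set_option autoImplicit false

open MeasureTheory Metric

namespace Pool.Agent.Results.MP_078bb2_an.GenericDiscrete

/-- The unit sphere `S^d` of `ℝ^(d+1)`. -/
abbrev Sph (d : ℕ) : Type := sphere (0 : EuclideanSpace ℝ (Fin (d + 1))) 1

/-- The `p`-frame energy `∫∫ |⟨x, y⟩|^p dμ(x) dμ(y)` of a measure on `S^d`. -/
noncomputable def frameEnergy (d : ℕ) (p : ℝ) (μ : Measure (Sph d)) : ℝ :=
  ∫ x : Sph d, ∫ y : Sph d, |inner ℝ (x : EuclideanSpace ℝ (Fin (d + 1))) y| ^ p ∂μ ∂μ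

/-- Minimizers of the `p`-frame energy over all Borel probability measures on `S^d`. -/
def IsMinimizer (d : ℕ) (p : ℝ) (μ : Measure (Sph d)) : Prop :=
  IsProbabilityMeasure μ ∧
    ∀ ν : Measure (Sph d), IsProbabilityMeasure ν → frameEnergy d p μ ≤ frameEnergy d p ν

/-- In every dimension `d`, for every exponent `p > 0` that is not a fraction with a denominator
at most `d`, every minimizer of the `p`-frame energy is discrete. -/
theorem result (d : ℕ) (hd : 1 ≤ d) (p : ℝ) (hp : 0 < p)
    (hgen : ∀ a b : ℕ, 1 ≤ b → b ≤ d → p ≠ (a : ℝ) / b)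
    (μ : Measure (Sph d)) (hμ : IsMinimizer d p μ) :
    μ.support.Finite ∧
      ∃ (N : ℕ) (x : Fin N → Sph d) (w : Fin N → ENNReal), Function.Injective x ∧
        (∀ i, 0 < w i) ∧ μ = ∑ i, w i • Measure.dirac (x i) := by
  have hmin : PFrame.IsMinimizer d p μ := ⟨hμ.1, fun ν hν => hμ.2 ν hν⟩
  have hfin : μ.support.Finite := by
    by_cases hirr : Irrational p
    · exact PFrame.main hp hirr hmin
    · have hrat : ∃ q : ℚ, (q : ℝ) = p := by
        by_contra h
        exact hirr fun ⟨q, hq⟩ => h ⟨q, hq⟩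
      obtain ⟨q, hq⟩ := hrat
      have hqpos : 0 < q := by
        have : (0 : ℝ) < (q : ℝ) := by rw [hq]; exact hp
        exact_mod_cast this
      have hnum : (0 : ℤ) < q.num := Rat.num_pos.2 hqpos
      have hnn : ((q.num.natAbs : ℕ) : ℤ) = q.num := Int.natAbs_of_nonneg hnum.le
      have hqe : p = ((q.num.natAbs : ℕ) : ℝ) / (q.den : ℝ) := by
        rw [← hq]
        have h1 : ((q.num.natAbs : ℕ) : ℝ) = ((q.num : ℤ) : ℝ) := by
          rw [← hnn]; simp
        rw [h1]
        exact_mod_cast (Rat.num_div_den q).symm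
      have hden : d < q.den := by
        by_contra hle
        exact hgen _ _ q.den_pos (not_lt.1 hle) hqe
      have hpab : p * (q.den : ℕ) = (q.num.natAbs : ℕ) := by
        have h0 : (q.den : ℝ) ≠ 0 := by exact_mod_cast q.den_ne_zero
        rw [hqe]
        field_simp
      have hno : PFrame.NoPD p d := PFrame.noPD_rat hp hpab q.reduced d hden
      have h := PFrame.real_finite hno (Subtype.val '' μ.support)
        (by rintro _ ⟨x, _, rfl⟩; exact x.2) (fun s a hs => PFrame.minimizer_PD hp hmin s a hs)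
      exact h.of_finite_image Subtype.val_injective.injOn
  exact ⟨hfin, PFrame.decomp μ hfin⟩

end Pool.Agent.Results.MP_078bb2_an.GenericDiscrete
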