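import Pool.Agent.Helper237.PF.Main

set_option autoImplicit false

open MeasureTheory Metric

namespace Pool.Agent.Results.MP_078bb2_an.IrrationalDiscrete

/-- The unit sphere `S^d` of `ℝ^(d+1)`. -/
abbrev Sph (d : ℕ) : Type := sphere (0 : EuclideanSpace ℝ (Fin (d + 1))) 1

/-- The `p`-frame energy `∫∫ |⟨x, y⟩|^p dμ(x) dμ(y)` of a measure on `S^d`. -/
noncomputable def frameEnergy (d : ℕ) (p : ℝ) (μ : Measure (Sph d)) : ℝ :=
  ∫ x : Sph d, ∫ y : Sph d, |inner ℝ (x : EuclideanSpace ℝ (Fin (d + 1))) y| ^ p ∂μ ∂μ

/-- Minimizers of the `p`-frame energy over all Borel probability measures on `S^d`. -/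
def IsMinimizer (d : ℕ) (p : ℝ) (μ : Measure (Sph d)) : Prop :=
  IsProbabilityMeasure μ ∧
    ∀ ν : Measure (Sph d), IsProbabilityMeasure ν → frameEnergy d p μ ≤ frameEnergy d p ν

/-- In every dimension, for every irrational exponent `p > 0`, every minimizer of the `p`-frame
energy is discrete: its support is finite, and it is a finite combination of point masses. -/
theorem result (d : ℕ) (p : ℝ) (hp : 0 < p) (hirr : Irrational p)
    (μ : Measure (Sph d)) (hμ : IsMinimizer d p μ) :
    μ.support.Finite ∧
      ∃ (N : ℕ) (x : Fin N → Sph d) (w : Fin N → ENNReal), Function.Injective x ∧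
        (∀ i, 0 < w i) ∧ μ = ∑ i, w i • Measure.dirac (x i) := by
  have hfin : μ.support.Finite := PFrame.main hp hirr (μ := μ) ⟨hμ.1, fun ν hν => hμ.2 ν hν⟩
  refine ⟨hfin, ?_⟩
  have := hμ.1
  have hcompl : μ μ.supportᶜ = 0 := Measure.measure_compl_support
  have : Fintype μ.support := hfin.fintype
  let e := (Fintype.equivFin μ.support).symm
  refine ⟨Fintype.card μ.support, fun i => (e i : Sph d), fun i => μ {(e i : Sph d)},
    fun i j h => e.injective (Subtype.ext h), ?_, ?_⟩
  · intro i
    have hi : ((e i : μ.support) : Sph d) ∈ μ.support := (e i).2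
    by_contra h0
    have h0' : μ {((e i : μ.support) : Sph d)} = 0 := by simpa using h0
    -- a neighbourhood of the point meets the support only there
    have hopen : IsOpen (μ.support \ {((e i : μ.support) : Sph d)})ᶜ :=
      (hfin.subset Set.sdiff_subset).isClosed.isOpen_compl
    have hmem : ((e i : μ.support) : Sph d) ∈ (μ.support \ {((e i : μ.support) : Sph d)})ᶜ := by
      simp
    have hpos : 0 < μ ((μ.support \ {((e i : μ.support) : Sph d)})ᶜ) :=
      (Measure.mem_support_iff_forall _).1 hi _ (hopen.mem_nhds hmem)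
    have hsub : (μ.support \ {((e i : μ.support) : Sph d)})ᶜ ⊆
        μ.supportᶜ ∪ {((e i : μ.support) : Sph d)} := by
      intro y hy
      by_cases h : y ∈ μ.support
      · right
        by_contra hne
        exact hy ⟨h, hne⟩
      · left; exact h
    have := measure_mono (μ := μ) hsub
    have h2 : μ (μ.supportᶜ ∪ {((e i : μ.support) : Sph d)}) = 0 :=
      measure_union_null hcompl h0'
    rw [h2] at this
    exact absurd this (not_le.mpr hpos)
  · ext A hA
    have h1 : μ A = μ (A ∩ μ.support) := by
      rw [measure_inter_conull hcompl]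
    have h2 : A ∩ μ.support = ⋃ i, (A ∩ {(e i : Sph d)}) := by
      ext y
      simp only [Set.mem_inter_iff, Set.mem_iUnion, Set.mem_singleton_iff]
      constructor
      · rintro ⟨hy, hys⟩
        exact ⟨e.symm ⟨y, hys⟩, hy, by simp⟩
      · rintro ⟨i, hy, rfl⟩
        exact ⟨hy, (e i).2⟩
    rw [h1, h2, measure_iUnion]
    · rw [tsum_fintype]
      simp only [Measure.coe_finsetSum, Finset.sum_apply, Measure.smul_apply, smul_eq_mul]
      refine Finset.sum_congr rfl fun i _ => ?_
      rw [Measure.dirac_apply' _ hA]
      by_cases h : (e i : Sph d) ∈ A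
      · have : A ∩ {((e i : μ.support) : Sph d)} = {((e i : μ.support) : Sph d)} :=
          Set.inter_eq_right.mpr (Set.singleton_subset_iff.mpr h)
        rw [this]
        simp [h]
      · have : A ∩ {((e i : μ.support) : Sph d)} = ∅ := by
          ext y
          simp only [Set.mem_inter_iff, Set.mem_singleton_iff, Set.mem_empty_iff_false, iff_false,
            not_and]
          rintro hy rfl
          exact h hy
        rw [this]
        simp [h]
    · intro i j hij
      refine Set.disjoint_left.mpr ?_
      rintro y ⟨_, hy⟩ ⟨_, hy'⟩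
      rw [Set.mem_singleton_iff] at hy hy'
      exact hij (e.injective (Subtype.ext (hy.symm.trans hy')))
    · intro i
      exact hA.inter (measurableSet_singleton _)

end Pool.Agent.Results.MP_078bb2_an.IrrationalDiscrete
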